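import Mathlib
import Pool.Agent.R1.Energy
import Pool.Agent.Helper951.Spec

/-!
# The energy of spiders with legs of length two

`spider N` is the tree with a centre and `N` legs of length two. Its energy is at least `2N` (twice
the size of a matching), it has `2N` edges and spectral radius at least `√(N+1)`. So
`2m / √λ₁ ≤ 4N / (N+1)^(1/4)`, which is smaller than `2N / C` for large `N`.
-/

set_option autoImplicit false

open Matrix Finset

namespace Pool.Agent.Results.MP_4a987e_co.SpiderEnergy

open Pool.Agent.R1.Energy Pool.Agent.Helper951.Spec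

/-- The spider with `N` legs of length two: the centre `none` is adjacent to the vertices
`some (i, false)`, and `some (i, false)` is adjacent to `some (i, true)`. -/
def spider (N : ℕ) : SimpleGraph (Option (Fin N × Bool)) where
  Adj x y := match x, y with
    | none, none => False
    | none, some p => p.2 = false
    | some p, none => p.2 = false
    | some p, some q => p.1 = q.1 ∧ p.2 ≠ q.2
  symm := ⟨by
    rintro (_ | p) (_ | q) h
    · exact h
    · exact h
    · exact h
    · exact ⟨h.1.symm, h.2.symm⟩⟩
  loopless := ⟨by
    rintro (_ | p) h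
    · exact h
    · exact h.2 rfl⟩

instance (N : ℕ) : DecidableRel (spider N).Adj := fun x y =>
  match x, y with
  | none, none => isFalse (fun h => h)
  | none, some p => decidable_of_iff (p.2 = false) Iff.rfl
  | some p, none => decidable_of_iff (p.2 = false) Iff.rfl
  | some p, some q => decidable_of_iff (p.1 = q.1 ∧ p.2 ≠ q.2) Iff.rfl

/-- the involution exchanging the two vertices of each leg -/
def sw (N : ℕ) : Option (Fin N × Bool) → Option (Fin N × Bool)
  | none => none
  | some p => some (p.1, !p.2)

lemma sw_sw (N : ℕ) (x : Option (Fin N × Bool)) : sw N (sw N x) = x := by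
  rcases x with _ | ⟨i, b⟩
  · rfl
  · simp [sw]

lemma sum_opt (N : ℕ) (f : Option (Fin N × Bool) → ℝ) :
    ∑ x, f x = f none + ∑ i : Fin N, (f (some (i, false)) + f (some (i, true))) := by
  rw [Fintype.sum_option, Fintype.sum_prod_type]
  congr 1
  refine Finset.sum_congr rfl fun i _ => ?_
  rw [Fintype.sum_bool, add_comm]

/-- the energy is at least twice the size of the matching given by the legs -/
lemma energy_ge (N : ℕ) : (2 * N : ℝ) ≤ energy (spider N) := by
  classical
  rw [energy_eq]
  let X : Matrix (Option (Fin N × Bool)) (Option (Fin N × Bool)) ℝ :=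
    fun x y => if y = sw N x then 1 else 0
  have hX : Xᵀ * X = 1 := by
    ext x y
    rw [Matrix.mul_apply]
    have h1 : ∀ z, Xᵀ x z * X z y = if z = sw N x then (if x = y then 1 else 0) else 0 := by
      intro z
      change (if x = sw N z then (1 : ℝ) else 0) * (if y = sw N z then 1 else 0) = _
      by_cases h : z = sw N x
      · subst h
        rw [sw_sw, if_pos rfl, if_pos rfl, one_mul]
        simp only [eq_comm]
      · have : ¬ x = sw N z := by
          rintro rfl
          exact h (sw_sw N z).symm
        rw [if_neg this, if_neg h, zero_mul]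
    rw [Finset.sum_congr rfl (fun z _ => h1 z), Finset.sum_ite_eq' Finset.univ,
      if_pos (Finset.mem_univ _), Matrix.one_apply]
  have h := trace_mul_le ((spider N).adjMatrix ℝ) (herm (spider N)) X hX
  refine le_trans (le_of_eq ?_) h
  have h2 : ∀ x, (((spider N).adjMatrix ℝ) * X) x x =
      if (spider N).Adj x (sw N x) then 1 else 0 := by
    intro x
    rw [Matrix.mul_apply]
    have h3 : ∀ z, (spider N).adjMatrix ℝ x z * X z x =
        if z = sw N x then (if (spider N).Adj x (sw N x) then 1 else 0) else 0 := by
      intro z
      simp only [X, SimpleGraph.adjMatrix_apply]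
      by_cases h : z = sw N x
      · subst h
        rw [sw_sw]
        simp
      · have : ¬ x = sw N z := by
          rintro rfl
          exact h (sw_sw N z).symm
        simp [h, this]
    rw [Finset.sum_congr rfl (fun z _ => h3 z), Finset.sum_ite_eq' Finset.univ,
      if_pos (Finset.mem_univ _)]
  simp only [Matrix.trace, Matrix.diag_apply, h2]
  rw [sum_opt]
  have h4 : ¬ (spider N).Adj none (sw N none) := fun h => h
  have h5 : ∀ i : Fin N, (spider N).Adj (some (i, false)) (sw N (some (i, false))) :=
    fun i => ⟨rfl, by simp⟩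
  have h6 : ∀ i : Fin N, (spider N).Adj (some (i, true)) (sw N (some (i, true))) :=
    fun i => ⟨rfl, by simp⟩
  rw [if_neg h4]
  simp only [h5, h6, if_true, Finset.sum_const, Finset.card_univ, Fintype.card_fin, nsmul_eq_mul]
  ring

lemma nbr_none (N : ℕ) (y : Option (Fin N × Bool) → ℝ) :
    ∑ u ∈ (spider N).neighborFinset none, y u = ∑ i : Fin N, y (some (i, false)) := by
  have h : ∑ u ∈ (spider N).neighborFinset none, y u =
      ∑ u, (if (spider N).Adj none u then y u else 0) := by
    rw [← Finset.sum_filter]
    refine Finset.sum_congr ?_ (fun _ _ => rfl)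
    ext u; simp
  have h0 : ¬ (spider N).Adj none none := fun h => h
  rw [h, sum_opt, if_neg h0, zero_add]
  refine Finset.sum_congr rfl fun i _ => ?_
  have h1 : (spider N).Adj none (some (i, false)) := rfl
  have h2 : ¬ (spider N).Adj none (some (i, true)) := fun h => Bool.noConfusion h
  rw [if_pos h1, if_neg h2, add_zero]

lemma nbr_false (N : ℕ) (i : Fin N) (y : Option (Fin N × Bool) → ℝ) :
    ∑ u ∈ (spider N).neighborFinset (some (i, false)), y u = y none + y (some (i, true)) := by
  have h : ∑ u ∈ (spider N).neighborFinset (some (i, false)), y u =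
      ∑ u, (if (spider N).Adj (some (i, false)) u then y u else 0) := by
    rw [← Finset.sum_filter]
    refine Finset.sum_congr ?_ (fun _ _ => rfl)
    ext u; simp
  have h0 : (spider N).Adj (some (i, false)) none := rfl
  rw [h, sum_opt, if_pos h0]
  congr 1
  have h1 : ∀ j : Fin N, ((if (spider N).Adj (some (i, false)) (some (j, false)) then
      y (some (j, false)) else 0) + (if (spider N).Adj (some (i, false)) (some (j, true)) then
      y (some (j, true)) else 0)) = if j = i then y (some (i, true)) else 0 := by
    intro j
    have h2 : ¬ (spider N).Adj (some (i, false)) (some (j, false)) := fun h => h.2 rfl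
    have h3 : (spider N).Adj (some (i, false)) (some (j, true)) ↔ j = i :=
      ⟨fun h => h.1.symm, fun h => ⟨h.symm, fun h' => Bool.noConfusion h'⟩⟩
    simp only [h2, h3, if_false, zero_add]
    by_cases hji : j = i
    · subst hji; rfl
    · simp [hji]
  rw [Finset.sum_congr rfl (fun j _ => h1 j), Finset.sum_ite_eq' Finset.univ,
    if_pos (Finset.mem_univ _)]

lemma nbr_true (N : ℕ) (i : Fin N) (y : Option (Fin N × Bool) → ℝ) :
    ∑ u ∈ (spider N).neighborFinset (some (i, true)), y u = y (some (i, false)) := by
  have h : ∑ u ∈ (spider N).neighborFinset (some (i, true)), y u =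
      ∑ u, (if (spider N).Adj (some (i, true)) u then y u else 0) := by
    rw [← Finset.sum_filter]
    refine Finset.sum_congr ?_ (fun _ _ => rfl)
    ext u; simp
  have h0 : ¬ (spider N).Adj (some (i, true)) none := fun h => Bool.noConfusion h
  rw [h, sum_opt, if_neg h0, zero_add]
  have h1 : ∀ j : Fin N, ((if (spider N).Adj (some (i, true)) (some (j, false)) then
      y (some (j, false)) else 0) + (if (spider N).Adj (some (i, true)) (some (j, true)) then
      y (some (j, true)) else 0)) = if j = i then y (some (i, false)) else 0 := by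
    intro j
    have h2 : ¬ (spider N).Adj (some (i, true)) (some (j, true)) := fun h => h.2 rfl
    have h3 : (spider N).Adj (some (i, true)) (some (j, false)) ↔ j = i :=
      ⟨fun h => h.1.symm, fun h => ⟨h.symm, fun h' => Bool.noConfusion h'⟩⟩
    simp only [h2, h3, if_false, add_zero]
    by_cases hji : j = i
    · subst hji; rfl
    · simp [hji]
  rw [Finset.sum_congr rfl (fun j _ => h1 j), Finset.sum_ite_eq' Finset.univ,
    if_pos (Finset.mem_univ _)]

/-- the spectral radius is at least `√(N+1)` -/
lemma specRad_ge (N : ℕ) (h0 : N ≠ 0) : √(N + 1 : ℝ) ≤ specRad (spider N) := by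
  have hN : (0 : ℝ) ≤ N := Nat.cast_nonneg N
  have hs : √(N + 1 : ℝ) * √(N + 1 : ℝ) = N + 1 := Real.mul_self_sqrt (by positivity)
  have hs0 : 0 ≤ √(N + 1 : ℝ) := Real.sqrt_nonneg _
  let y : Option (Fin N × Bool) → ℝ := fun x => match x with
    | none => N
    | some p => if p.2 then 1 else √(N + 1 : ℝ)
  have y0 : y none = N := rfl
  have y1 : ∀ i, y (some (i, false)) = √(N + 1 : ℝ) := fun i => rfl
  have y2 : ∀ i, y (some (i, true)) = 1 := fun i => rfl
  apply le_specRad_of_sub _ y
  · rintro (_ | ⟨i, b⟩)
    · exact hN
    · cases b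
      · rw [y1]; exact hs0
      · rw [y2]; exact zero_le_one
  · exact ⟨none, by rw [y0]; positivity⟩
  · rintro (_ | ⟨i, b⟩)
    · rw [nbr_none, y0]
      simp only [y1, Finset.sum_const, Finset.card_univ, Fintype.card_fin, nsmul_eq_mul]
      linarith
    · cases b
      · rw [nbr_false, y0, y1, y2]
        linarith
      · rw [nbr_true, y1, y2]
        linarith

lemma edges (N : ℕ) : (spider N).edgeSet.ncard = 2 * N := by
  classical
  have hd : (spider N).edgeSet.ncard = (spider N).edgeFinset.card := by
    rw [Set.ncard_eq_toFinset_card']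
    rfl
  have h := (spider N).sum_degrees_eq_twice_card_edges
  have hdeg : ∀ x, ((spider N).degree x : ℝ) = ∑ u ∈ (spider N).neighborFinset x, (1 : ℝ) := by
    intro x
    rw [Finset.sum_const, SimpleGraph.card_neighborFinset_eq_degree]
    simp
  have h1 : ((∑ x, (spider N).degree x : ℕ) : ℝ) = 4 * N := by
    push_cast
    rw [sum_opt, hdeg none, nbr_none N (fun _ => 1)]
    have h2 : ∀ i : Fin N, (((spider N).degree (some (i, false)) : ℝ) +
        ((spider N).degree (some (i, true)) : ℝ)) = 3 := by
      intro i
      rw [hdeg, hdeg, nbr_false N i (fun _ => 1), nbr_true N i (fun _ => 1)]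
      norm_num
    simp only [h2, Finset.sum_const, Finset.card_univ, Fintype.card_fin, nsmul_eq_mul]
    ring
  have h3 : ∑ x, (spider N).degree x = 4 * N := by exact_mod_cast h1
  omega

lemma tree (N : ℕ) : (spider N).IsTree := by
  classical
  rw [SimpleGraph.isTree_iff_connected_and_card]
  constructor
  · have hr : ∀ x, (spider N).Reachable none x := by
      have h1 : ∀ i : Fin N, (spider N).Reachable none (some (i, false)) := fun i =>
        SimpleGraph.Adj.reachable (show (spider N).Adj none (some (i, false)) from rfl)
      rintro (_ | ⟨i, b⟩)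
      · exact SimpleGraph.Reachable.refl _
      · cases b
        · exact h1 i
        · exact (h1 i).trans (SimpleGraph.Adj.reachable
            (show (spider N).Adj (some (i, false)) (some (i, true)) from
              ⟨rfl, fun h' => Bool.noConfusion h'⟩))
    exact ⟨fun x y => (hr x).symm.trans (hr y)⟩
  · have h1 : Nat.card (spider N).edgeSet = 2 * N := by
      rw [← edges N]
      rfl
    rw [h1]
    simp
    ring

/-- For every real `C` there is a tree with at least one edge whose energy is larger than
`C · 2m / √λ₁`, where `m` is the number of its edges and `λ₁` its spectral radius. -/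
theorem result : ∀ C : ℝ, ∃ (V : Type) (_ : Fintype V) (G : SimpleGraph V), G.IsTree ∧
    0 < G.edgeSet.ncard ∧ C * (2 * G.edgeSet.ncard / √(specRad G)) < energy G := by
  intro C
  obtain ⟨N, hN⟩ := exists_nat_gt ((2 * |C| + 1) ^ 4)
  have hC := abs_nonneg C
  have hN1 : (1 : ℝ) < N := lt_of_le_of_lt (one_le_pow₀ (by linarith)) hN
  have hN0 : N ≠ 0 := by
    rintro rfl
    norm_num at hN1
  have hNpos : (0 : ℝ) < N := by linarith
  refine ⟨_, inferInstance, spider N, tree N, by rw [edges]; omega, ?_⟩
  rw [edges]
  refine lt_of_lt_of_le ?_ (energy_ge N)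
  have h1 := specRad_ge N hN0
  have h2 : (2 * |C| + 1) ^ 2 ≤ specRad (spider N) := by
    refine le_trans ?_ h1
    apply Real.le_sqrt_of_sq_le
    have h7 : ((2 * |C| + 1) ^ 2) ^ 2 = (2 * |C| + 1) ^ 4 := by ring
    rw [h7]
    linarith
  have h3 : 2 * |C| + 1 ≤ √(specRad (spider N)) := Real.le_sqrt_of_sq_le h2
  have h4 : 0 < √(specRad (spider N)) := by linarith
  rw [mul_div_assoc', div_lt_iff₀ h4]
  push_cast
  have h5 : C ≤ |C| := le_abs_self C
  have h6 : 2 * (N : ℝ) * (2 * |C| + 1) ≤ 2 * N * √(specRad (spider N)) :=
    mul_le_mul_of_nonneg_left h3 (by positivity)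
  nlinarith

end Pool.Agent.Results.MP_4a987e_co.SpiderEnergy
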